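import Pool.Agent.W734.STB.Stms

/-!
# Choice of the number of subboxes
-/

set_option autoImplicit false

noncomputable section

namespace Pool.Agent.W589.STB

open MeasureTheory Set Filter Metric Pool.Agent.W734.TWB Pool.Agent.W734.STB

lemma key (c s0 D : ℝ) (hc : 0 < c) (hs0 : 0 < s0) (hD : 0 < D) (N n : ℕ) (hnN : n ≤ N)
    (l T ν : ℝ) (hl : 0 < l) (hT : T ^ 6 = ν ^ 2 * N) (hν1 : 1 ≤ ν) (hTs : s0 ≤ T)
    (hν2 : 384 * s0 ^ 6 * D ≤ ν * c) (t0 : ℝ) (ht4 : 4 ≤ t0) (ht : 6144 * D ≤ t0 * c)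
    (hn : t0 * ν < n) :
    ∃ M : ℕ, 1 ≤ M ∧ 4 * M ^ 3 ≤ n ∧ (M : ℝ) * s0 ≤ T ∧
      D * (n : ℝ) ^ 2 * (1 / ν) ≤ (n : ℝ) / 6 * (c * M ^ 6 / ν ^ 2) := by
  classical
  have hν0 : 0 < ν := by linarith
  have hn4 : (4 : ℝ) < n := by nlinarith
  have hn4' : 4 < n := by exact_mod_cast hn4
  have hP1 : 4 * 1 ^ 3 ≤ n ∧ ((1 : ℕ) : ℝ) * s0 ≤ T := ⟨by omega, by push_cast; linarith⟩
  set P : ℕ → Prop := fun M => 4 * M ^ 3 ≤ n ∧ (M : ℝ) * s0 ≤ T with hP
  set M := Nat.findGreatest P n with hM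
  have h1M : 1 ≤ M := Nat.le_findGreatest (by omega) hP1
  have hPM : P M := Nat.findGreatest_spec (P := P) (m := 1) (by omega) hP1
  have hnP : ¬ P (M + 1) := by
    intro h
    by_cases hle : M + 1 ≤ n
    · exact Nat.findGreatest_is_greatest (Nat.lt_succ_self M) hle h
    · have h1 := h.1
      have h2 : M + 1 ≤ (M + 1) ^ 3 := Nat.le_self_pow (by norm_num) _
      omega
  refine ⟨M, h1M, hPM.1, hPM.2, ?_⟩
  have hM1 : (1 : ℝ) ≤ M := by exact_mod_cast h1M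
  have hM0 : (0 : ℝ) < M := by linarith
  have hn0 : (0 : ℝ) < n := by linarith
  -- it suffices to bound `D n ν ≤ c M^6 / 6`
  have hsuff : D * n * ν * 6 ≤ c * M ^ 6 := by
    by_cases h4 : 4 * (M + 1) ^ 3 ≤ n
    · have hT2 : T < ((M + 1 : ℕ) : ℝ) * s0 := by
        by_contra hcon
        push Not at hcon
        exact hnP ⟨h4, hcon⟩
      push_cast at hT2
      have hT3 : T ≤ 2 * M * s0 := by nlinarith
      have hT0 : 0 ≤ T := by linarith
      have hT6 : T ^ 6 ≤ (2 * M * s0) ^ 6 := pow_le_pow_left₀ hT0 hT3 6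
      have h5 : ν ^ 2 * N ≤ 64 * s0 ^ 6 * M ^ 6 := by
        rw [← hT]
        calc T ^ 6 ≤ (2 * M * s0) ^ 6 := hT6
          _ = 64 * s0 ^ 6 * M ^ 6 := by ring
      have hnN' : (n : ℝ) ≤ N := by exact_mod_cast hnN
      have hs6 : 0 < s0 ^ 6 := by positivity
      -- 384 s0^6 D n ν ≤ ν c n ν ≤ c ν^2 N ≤ c 64 s0^6 M^6
      have h6 : 384 * s0 ^ 6 * D * (n * ν) ≤ ν * c * (n * ν) :=
        mul_le_mul_of_nonneg_right hν2 (by positivity)
      have h7 : ν * c * (n * ν) ≤ c * (ν ^ 2 * N) := by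
        have : ν * c * (n * ν) = c * (ν ^ 2 * n) := by ring
        rw [this]
        gcongr
      have h8 : c * (ν ^ 2 * N) ≤ c * (64 * s0 ^ 6 * M ^ 6) := by gcongr
      have h9 : (64 * s0 ^ 6) * (D * n * ν * 6) ≤ (64 * s0 ^ 6) * (c * M ^ 6) := by
        nlinarith
      exact le_of_mul_le_mul_left h9 (by positivity)
    · have h5 : (n : ℝ) < 4 * ((M : ℝ) + 1) ^ 3 := by
        have : n < 4 * (M + 1) ^ 3 := by omega
        exact_mod_cast this
      have h6 : ((M : ℝ) + 1) ^ 3 ≤ (2 * M) ^ 3 := pow_le_pow_left₀ (by linarith) (by linarith) 3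
      have h7 : (n : ℝ) ≤ 32 * M ^ 3 := by nlinarith
      have h8 : (n : ℝ) ^ 2 ≤ (32 * M ^ 3) ^ 2 := pow_le_pow_left₀ hn0.le h7 2
      have h9 : (n : ℝ) ^ 2 ≤ 1024 * M ^ 6 := by
        calc (n : ℝ) ^ 2 ≤ (32 * M ^ 3) ^ 2 := h8
          _ = 1024 * M ^ 6 := by ring
      -- 6144 D ν ≤ t0 c ν ≤ c n
      have h10 : 6144 * D * ν ≤ c * n := by
        calc 6144 * D * ν ≤ t0 * c * ν := mul_le_mul_of_nonneg_right ht hν0.le
          _ = c * (t0 * ν) := by ring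
          _ ≤ c * n := by gcongr
      have h11 : 6144 * D * ν * n ≤ c * n * n := mul_le_mul_of_nonneg_right h10 hn0.le
      have h12 : c * n * n ≤ c * (1024 * M ^ 6) := by
        have : c * n * n = c * (n : ℝ) ^ 2 := by ring
        rw [this]
        gcongr
      nlinarith
  have h1 : D * (n : ℝ) ^ 2 * (1 / ν) = (n / (6 * ν ^ 2)) * (D * n * ν * 6) := by
    field_simp
  have h2 : (n : ℝ) / 6 * (c * M ^ 6 / ν ^ 2) = (n / (6 * ν ^ 2)) * (c * M ^ 6) := by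
    field_simp
  rw [h1, h2]
  exact mul_le_mul_of_nonneg_left hsuff (by positivity)

theorem st2 : S_ST2 := by
  intro β c s0 D hβ hβ3 hc hs0 hD
  set t0 : ℝ := max 4 (6144 * D / c) with ht0
  have ht4 : 4 ≤ t0 := le_max_left _ _
  have ht : 6144 * D ≤ t0 * c := by
    have h := le_max_right 4 (6144 * D / c)
    rw [← ht0, div_le_iff₀ hc] at h
    exact h
  have hlim1 : Tendsto (fun N : ℕ => (N : ℝ) ^ (1 - 3 * β)) atTop atTop :=
    (tendsto_rpow_atTop (by linarith)).comp tendsto_natCast_atTop_atTop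
  have hlim2 : Tendsto (fun N : ℕ => (N : ℝ) ^ (1 / 2 - β)) atTop atTop :=
    (tendsto_rpow_atTop (by linarith)).comp tendsto_natCast_atTop_atTop
  have hev := (hlim1.eventually_ge_atTop (max 1 (384 * s0 ^ 6 * D / c))).and
    ((hlim2.eventually_ge_atTop s0).and (eventually_ge_atTop 1))
  obtain ⟨N0, hN0⟩ := eventually_atTop.1 hev
  refine ⟨D * t0, N0 + 1, by positivity, by omega, ?_⟩
  intro N hN n hn
  obtain ⟨hν, hTs, hN1⟩ := hN0 N (by omega)
  have hNpos : (0 : ℝ) < N := by exact_mod_cast hN1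
  set ν : ℝ := (N : ℝ) ^ (1 - 3 * β) with hνdef
  set T : ℝ := (N : ℝ) ^ (1 / 2 - β) with hTdef
  set l : ℝ := (N : ℝ) ^ (-β) with hldef
  have hlpos : 0 < l := Real.rpow_pos_of_pos hNpos _
  have hν1 : 1 ≤ ν := le_trans (le_max_left _ _) hν
  have hν0 : 0 < ν := by linarith
  have hν2 : 384 * s0 ^ 6 * D ≤ ν * c := by
    have h := le_trans (le_max_right _ _) hν
    rwa [div_le_iff₀ hc] at h
  have hx : (N : ℝ) ^ (3 * β - 1) = 1 / ν := by
    rw [hνdef, one_div, ← Real.rpow_neg hNpos.le]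
    congr 1
    ring
  have hT6 : T ^ 6 = ν ^ 2 * N := by
    rw [hTdef, hνdef, ← Real.rpow_natCast, ← Real.rpow_natCast, ← Real.rpow_mul hNpos.le,
      ← Real.rpow_mul hNpos.le]
    nth_rewrite 3 [← Real.rpow_one (N : ℝ)]
    rw [← Real.rpow_add hNpos]
    congr 1
    push_cast
    ring
  have hTl : Real.sqrt N * l = T := by
    rw [hTdef, hldef, Real.sqrt_eq_rpow, ← Real.rpow_add hNpos]
    congr 1
  have hνl : (N : ℝ) ^ 2 * l ^ 6 = ν ^ 2 := by
    rw [hνdef, hldef, ← Real.rpow_natCast, ← Real.rpow_natCast, ← Real.rpow_natCast,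
      ← Real.rpow_mul hNpos.le, ← Real.rpow_mul hNpos.le, ← Real.rpow_add hNpos]
    congr 1
    push_cast
    ring
  rw [hx]
  by_cases hcase : (n : ℝ) ≤ t0 * ν
  · left
    have h1 : (n : ℝ) * (1 / ν) ≤ t0 := by
      rw [mul_one_div, div_le_iff₀ hν0]
      exact hcase
    have hn0 : (0 : ℝ) ≤ n := Nat.cast_nonneg n
    calc D * (n : ℝ) ^ 2 * (1 / ν) = D * n * (n * (1 / ν)) := by ring
      _ ≤ D * n * t0 := by gcongr
      _ = D * t0 * n := by ring
  · right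
    push Not at hcase
    obtain ⟨M, hM1, hM2, hM3, hM4⟩ := key c s0 D hc hs0 hD N n hn l T ν hlpos hT6 hν1 hTs hν2 t0
      ht4 ht hcase
    have hMpos : (0 : ℝ) < M := by exact_mod_cast hM1
    refine ⟨M, hM1, hM2, ?_, ?_⟩
    · rw [← mul_div_assoc, hTl, le_div_iff₀ hMpos]
      linarith
    · have h1 : c / ((N : ℝ) ^ 2 * (l / M) ^ 6) = c * M ^ 6 / ν ^ 2 := by
        rw [← hνl]
        field_simp
      rw [h1]
      exact hM4

end Pool.Agent.W589.STB
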